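import Pool.Agent.helper32.BT.JD
import Pool.Agent.helper32.BT.JE

/-! # MP_b57423_pr: full answer to Q1.
`β = bm B₁ B₂` is planar Brownian motion with generator `Δ` started at `0` (its projection is the
Brownian motion of the torus `ℝ²/ℤ²`), and `lam1 (trace B₁ B₂ s ω)` is the principal Dirichlet
eigenvalue of the complement of `β[0,s]` in the torus. Then `s^(-1/2) log E λ₁ → 2 √π`. -/

open MeasureTheory ProbabilityTheory Filter Topology Pool.Agent.helper32.EB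
open scoped ENNReal NNReal

namespace Pool.Agent.Results.MP_b57423_pr.BrownianEigenvalue

theorem result {Ω : Type*} [MeasurableSpace Ω] {P : Measure Ω} {B₁ B₂ : ℝ≥0 → Ω → ℝ}
    (hB : IsBM2 P B₁ B₂) :
    (∀ s : ℝ, AEMeasurable (fun ω => lam1 (trace B₁ B₂ s ω)) P ∧
      ∫⁻ ω, lam1 (trace B₁ B₂ s ω) ∂P < ⊤) ∧
    Tendsto (fun s : ℝ => Real.log (∫⁻ ω, lam1 (trace B₁ B₂ s ω) ∂P).toReal / √s) atTop
      (𝓝 (2 * √Real.pi)) := by
  obtain ⟨h1, h2⟩ := main hB
  refine ⟨fun s => ⟨lam1_aemeas hB s, ?_⟩, h2⟩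
  obtain ⟨s', hs', hss'⟩ := (h1.and (eventually_ge_atTop s)).exists
  refine lt_of_le_of_lt (lintegral_mono fun ω => JE_mono ?_) hs'
  rintro z ⟨t, ht, hz⟩
  exact ⟨t, ht.trans hss', hz⟩

end Pool.Agent.Results.MP_b57423_pr.BrownianEigenvalue
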